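import Pool.Agent.Y399.MG.C

/-!
# Integral matrices over number fields with a large discriminant
-/

set_option autoImplicit false

open Finset Polynomial Module NumberField IntermediateField

namespace Pool.Agent.Y399.MG

open Pool.Agent.H388SL Pool.Agent.Y399.RD Pool.Agent.H225R3.Marg

/-- the lower bound, with the discriminant of a subfield `F` of `k` -/
theorem lower_sub : ∃ c : ℝ, 0 < c ∧ ∀ (F k L : Type) [Field F] [NumberField F] [Field k]
    [NumberField k] [Algebra F k] [Field L] [NumberField L] [Algebra k L]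
    (S : Finset (k →+* ℂ)) (x : L) (s n e : ℕ) (T R : ℝ), x ≠ 0 → IsIntegral ℤ x →
    (∀ m : ℕ, 0 < m → x ^ m ≠ 1) → 1 ≤ R →
    (∀ τ : L →+* ℂ, τ.comp (algebraMap k L) ∉ S → ‖τ x‖ ≤ 1) → (∀ τ : L →+* ℂ, ‖τ x‖ ≤ R) →
    S.card ≤ s → finrank k L ≤ n → finrank F k ≤ e →
    (∀ σ ∈ S, ∀ σ' ∈ S, σ.comp (algebraMap F k) ≠ σ'.comp (algebraMap F k) →
      s * (n * e) ^ 2 * finrank ℚ F <
        pairDeg (σ.comp (algebraMap F k)) (σ'.comp (algebraMap F k))) → 0 < T →
    (finrank ℚ F / T) ^ finrank ℚ F ≤ |(discr F : ℝ)| →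
    c * (Real.log (Real.log (16 + (n * e : ℕ) * T)) / Real.log (16 + (n * e : ℕ) * T)) ^ 3 ≤
      (s * (n * e) : ℕ) * Real.log R := by
  obtain ⟨c, hc, hlow⟩ := lower
  refine ⟨c, hc, ?_⟩
  intro F k L _ _ _ _ _ _ _ _ S x s n e T R hxne hxint hxroot hR hτout hin hs hdeg he hS hT hdisc
  classical
  letI : Algebra F L := ((algebraMap k L).comp (algebraMap F k)).toAlgebra
  haveI : IsScalarTower F k L := IsScalarTower.of_algebraMap_eq' rfl
  haveI : Module.Free F k := Module.Free.of_divisionRing F k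
  haveI : Module.Free k L := Module.Free.of_divisionRing k L
  have hFL : finrank F L ≤ n * e := by
    have h2 : finrank F k * finrank k L = finrank F L := Module.finrank_mul_finrank F k L
    rw [← h2, mul_comm]
    exact Nat.mul_le_mul hdeg he
  set S' : Finset (F →+* ℂ) := S.image fun σ => σ.comp (algebraMap F k) with hS'
  have hout' : ∀ τ : L →+* ℂ, τ.comp (algebraMap F L) ∉ S' → ‖τ x‖ ≤ 1 := by
    intro τ hτ
    refine hτout τ fun h => hτ ?_
    rw [hS', Finset.mem_image]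
    exact ⟨_, h, rfl⟩
  have hcard : S'.card ≤ s := Finset.card_image_le.trans hs
  have hSS : ∀ σ ∈ S', ∀ σ' ∈ S', σ ≠ σ' → s * (n * e) ^ 2 * finrank ℚ F < pairDeg σ σ' := by
    intro σ hσ σ' hσ' hne
    rw [hS', Finset.mem_image] at hσ hσ'
    obtain ⟨ρ, hρ, rfl⟩ := hσ
    obtain ⟨ρ', hρ', rfl⟩ := hσ'
    exact hS ρ hρ ρ' hρ' hne
  have h1 := hlow F L S' x s (n * e) (1 / T) R hxne hxint hxroot hR hout' hin hcard hFL hSS
    (by positivity) (by
      have e1 : 1 / T * (finrank ℚ F : ℝ) = finrank ℚ F / T := by ring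
      rw [e1]
      exact hdisc)
  have e2 : ((n * e : ℕ) : ℝ) / (1 / T) = (n * e : ℕ) * T := by field_simp
  rw [e2] at h1
  exact h1

/-- **The lower bound for the largest eigenvalue.** -/
theorem gap1 : ∃ c : ℝ, 0 < c ∧ ∀ (F k : Type) [Field F] [NumberField F] [Field k] [NumberField k]
    [Algebra F k] (n : ℕ)
    (S : Finset (k →+* ℂ)) (A : Matrix (Fin n) (Fin n) (𝓞 k)) (s e : ℕ) (T : ℝ), S.card ≤ s →
    finrank F k ≤ e →
    (∀ σ ∈ S, ∀ σ' ∈ S, σ.comp (algebraMap F k) ≠ σ'.comp (algebraMap F k) →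
      s * (n * e) ^ 2 * finrank ℚ F <
        pairDeg (σ.comp (algebraMap F k)) (σ'.comp (algebraMap F k))) → 0 < T →
    (finrank ℚ F / T) ^ finrank ℚ F ≤ |(discr F : ℝ)| → IsUnit A →
    (∀ σ : k →+* ℂ, σ ∉ S → ∀ l : ℂ, ((emb σ).mapMatrix A).charpoly.IsRoot l → ‖l‖ ≤ 1) →
    (∀ N : ℕ, 0 < N → ¬ IsNilpotent (A ^ N - 1)) →
    ∃ σ ∈ S, ∃ l : ℂ, ((emb σ).mapMatrix A).charpoly.IsRoot l ∧ 1 < ‖l‖ ∧
      c * (Real.log (Real.log (16 + (n * e : ℕ) * T)) / Real.log (16 + (n * e : ℕ) * T)) ^ 3 ≤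
        (s * (n * e) : ℕ) * Real.log ‖l‖ := by
  obtain ⟨c, hc, hlow'⟩ := lower_sub
  refine ⟨c, hc, ?_⟩
  intro F k _ _ _ _ _ n S A s e T hs he hS hT hdisc hA hout hnil
  classical
  -- a root which is not a root of unity
  set f : 𝓞 k →+* AlgebraicClosure k :=
    (algebraMap k (AlgebraicClosure k)).comp (algebraMap (𝓞 k) k) with hf
  have hfinj : Function.Injective f :=
    (algebraMap k (AlgebraicClosure k)).injective.comp
      (FaithfulSMul.algebraMap_injective (𝓞 k) k)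
  obtain ⟨l, hl, hlN⟩ : ∃ l, (A.charpoly.map f).IsRoot l ∧ ∀ N : ℕ, 0 < N → l ^ N ≠ 1 := by
    by_contra hcon
    push Not at hcon
    obtain ⟨N, hN, h⟩ := nilp_of_roots f hfinj A hcon
    exact hnil N hN h
  have hspec : l ∈ spectrum (AlgebraicClosure k) (f.mapMatrix A) := by
    rw [Matrix.mem_spectrum_iff_isRoot_charpoly]
    have : (f.mapMatrix A).charpoly = A.charpoly.map f := by rw [← Matrix.charpoly_map]; rfl
    rw [this]
    exact hl
  have hl0 : l ≠ 0 := by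
    rintro rfl
    exact (spectrum.zero_notMem_iff _).mpr (hA.map f.mapMatrix) hspec
  -- the field
  have hlint : IsIntegral k l := Algebra.IsIntegral.isIntegral l
  let L := IntermediateField.adjoin k {l}
  haveI : FiniteDimensional k L := IntermediateField.adjoin.finiteDimensional hlint
  haveI : CharZero L := charZero_of_injective_algebraMap (algebraMap k L).injective
  haveI : NumberField L := NumberField.of_module_finite k L
  let x : L := ⟨l, IntermediateField.mem_adjoin_simple_self k l⟩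
  have hxl : algebraMap L (AlgebraicClosure k) x = l := rfl
  set g : 𝓞 k →+* L := (algebraMap k L).comp (algebraMap (𝓞 k) k) with hg
  have hgf : (algebraMap L (AlgebraicClosure k)).comp g = f := by
    rw [hg, hf, ← RingHom.comp_assoc]
    rfl
  have hx0 : eval₂ g x A.charpoly = 0 := by
    apply (algebraMap L (AlgebraicClosure k)).injective
    rw [map_zero, hom_eval₂, hgf, hxl]
    rw [IsRoot, eval_map] at hl
    exact hl
  have hxint : IsIntegral ℤ x := by
    have h1 : IsIntegral (𝓞 k) x := by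
      refine ⟨A.charpoly, A.charpoly_monic, ?_⟩
      have : algebraMap (𝓞 k) L = g := rfl
      rw [this]
      exact hx0
    haveI : IsScalarTower ℤ (𝓞 k) L := IsScalarTower.of_algebraMap_eq' (RingHom.ext_int _ _)
    exact isIntegral_trans x h1
  have hxne : x ≠ 0 := by
    intro h
    apply hl0
    rw [← hxl, h, map_zero]
  have hxroot : ∀ N : ℕ, 0 < N → x ^ N ≠ 1 := by
    intro N hN h
    apply hlN N hN
    rw [← hxl, ← map_pow, h, map_one]
  have hdeg : finrank k L ≤ n := by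
    have h1 : finrank k L = (minpoly k l).natDegree := IntermediateField.adjoin.finrank hlint
    rw [h1]
    have h2 : (A.charpoly.map (algebraMap (𝓞 k) k)).Monic := A.charpoly_monic.map _
    have h3 : aeval l (A.charpoly.map (algebraMap (𝓞 k) k)) = 0 := by
      rw [aeval_def, eval₂_map]
      rw [IsRoot, eval_map] at hl
      exact hl
    refine (natDegree_le_of_dvd (minpoly.dvd k l h3) h2.ne_zero).trans ?_
    rw [A.charpoly_monic.natDegree_map, Matrix.charpoly_natDegree_eq_dim, Fintype.card_fin]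
  -- norms of the conjugates
  have hτroot : ∀ τ : L →+* ℂ,
      ((emb (τ.comp (algebraMap k L))).mapMatrix A).charpoly.IsRoot (τ x) := by
    intro τ
    have h1 : ((emb (τ.comp (algebraMap k L))).mapMatrix A).charpoly =
        A.charpoly.map (emb (τ.comp (algebraMap k L))) := by rw [← Matrix.charpoly_map]; rfl
    rw [h1, IsRoot, eval_map]
    have h2 : emb (τ.comp (algebraMap k L)) = τ.comp g := rfl
    rw [h2, ← hom_eval₂, hx0, map_zero]
  have hτout : ∀ τ : L →+* ℂ, τ.comp (algebraMap k L) ∉ S → ‖τ x‖ ≤ 1 :=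
    fun τ hτ => hout _ hτ _ (hτroot τ)
  obtain ⟨τ1, hτ1⟩ : ∃ τ1 : L →+* ℂ, 1 < ‖τ1 x‖ := by
    by_contra hcon
    push Not at hcon
    obtain ⟨N, hN, h⟩ := NumberField.Embeddings.pow_eq_one_of_norm_le_one L ℂ hxne hxint hcon
    exact hxroot N hN h
  obtain ⟨τ0, -, hmax⟩ := Finset.exists_max_image (univ : Finset (L →+* ℂ)) (fun τ => ‖τ x‖)
    ⟨τ1, Finset.mem_univ _⟩
  have hτ0 : 1 < ‖τ0 x‖ := hτ1.trans_le (hmax τ1 (Finset.mem_univ _))
  have hmem : τ0.comp (algebraMap k L) ∈ S := by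
    by_contra h
    exact absurd hτ0 (not_lt.mpr (hτout τ0 h))
  refine ⟨_, hmem, τ0 x, hτroot τ0, hτ0, ?_⟩
  exact hlow' F k L S x s n e T ‖τ0 x‖ hxne hxint hxroot hτ0.le hτout
    (fun τ => hmax τ (Finset.mem_univ _)) hs hdeg he hS hT hdisc

/-- **The gap.** -/
theorem gap2 (δ : ℝ) (hδ : 0 < δ) (s n e : ℕ) : ∃ ε : ℝ, 0 < ε ∧ ∀ (F k : Type) [Field F]
    [NumberField F] [Field k] [NumberField k] [Algebra F k]
    (S : Finset (k →+* ℂ)) (A : Matrix (Fin n) (Fin n) (𝓞 k)), S.card ≤ s → finrank F k ≤ e →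
    (∀ σ ∈ S, ∀ σ' ∈ S, σ.comp (algebraMap F k) ≠ σ'.comp (algebraMap F k) →
      s * (n * e) ^ 2 * finrank ℚ F <
        pairDeg (σ.comp (algebraMap F k)) (σ'.comp (algebraMap F k))) →
    (δ * finrank ℚ F) ^ finrank ℚ F ≤ |(discr F : ℝ)| → IsUnit A →
    (∀ σ : k →+* ℂ, σ ∉ S → ∀ l : ℂ, ((emb σ).mapMatrix A).charpoly.IsRoot l → ‖l‖ ≤ 1) →
    (∀ N : ℕ, 0 < N → ¬ IsNilpotent (A ^ N - 1)) →
    ∃ σ ∈ S, ∃ l : ℂ, ((emb σ).mapMatrix A).charpoly.IsRoot l ∧ ε ≤ ‖l - 1‖ := by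
  obtain ⟨c, hc, h⟩ := gap1
  set q : ℝ := Real.log (Real.log (16 + (n * e : ℕ) * (1 / δ))) /
    Real.log (16 + (n * e : ℕ) * (1 / δ)) with hq
  have hq0 : 0 < q := by
    have h0 : (0 : ℝ) ≤ (n * e : ℕ) * (1 / δ) := by positivity
    have h1 : Real.exp 1 < 16 + (n * e : ℕ) * (1 / δ) := by
      have := Real.exp_one_lt_d9
      linarith
    have h2 : 1 < Real.log (16 + (n * e : ℕ) * (1 / δ)) := by
      rw [Real.lt_log_iff_exp_lt (by linarith)]
      exact h1
    exact div_pos (Real.log_pos h2) (by linarith)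
  obtain ⟨ε, hε, hεc⟩ : ∃ ε : ℝ, 0 < ε ∧
      ((s * (n * e) : ℕ) : ℝ) * Real.log (1 + ε) < c * q ^ 3 := by
    have hcont : ContinuousAt (fun y : ℝ => ((s * (n * e) : ℕ) : ℝ) * Real.log (1 + y)) 0 := by
      refine continuousAt_const.mul (ContinuousAt.log (by fun_prop) (by norm_num))
    have h2 := hcont.tendsto
    simp only [add_zero, Real.log_one, mul_zero] at h2
    have h3 : ∀ᶠ y : ℝ in nhdsWithin 0 (Set.Ioi 0),
        ((s * (n * e) : ℕ) : ℝ) * Real.log (1 + y) < c * q ^ 3 :=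
      (h2.mono_left nhdsWithin_le_nhds).eventually (gt_mem_nhds (by positivity))
    obtain ⟨y, hy1, hy2⟩ := (h3.and self_mem_nhdsWithin).exists
    exact ⟨y, hy2, hy1⟩
  refine ⟨ε, hε, ?_⟩
  intro F k _ _ _ _ _ S A hs he hS hdisc hA hout hnil
  obtain ⟨σ, hσ, l, hl, hl1, hlow⟩ := h F k n S A s e (1 / δ) hs he hS (by positivity) (by
    have e1 : (finrank ℚ F : ℝ) / (1 / δ) = δ * finrank ℚ F := by field_simp
    rw [e1]
    exact hdisc) hA hout hnil
  refine ⟨σ, hσ, l, hl, ?_⟩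
  by_contra hcon
  push Not at hcon
  have h1 : ‖l‖ ≤ 1 + ε := by
    have h2 : ‖l‖ ≤ ‖l - 1‖ + ‖(1 : ℂ)‖ := by
      have := norm_add_le (l - 1) 1
      rwa [sub_add_cancel] at this
    rw [norm_one] at h2
    linarith
  have h3 : Real.log ‖l‖ ≤ Real.log (1 + ε) := Real.log_le_log (by linarith) h1
  have h4 := mul_le_mul_of_nonneg_left h3 (Nat.cast_nonneg (α := ℝ) (s * (n * e)))
  linarith

end Pool.Agent.Y399.MG
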