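import Pool.Agent.Y399.MG.G

/-!
# The gap for highly ramified fields
-/

set_option autoImplicit false

open Finset Polynomial Module NumberField IntermediateField

namespace Pool.Agent.Y399.MG

open Pool.Agent.H388SL Pool.Agent.Y399.RD Pool.Agent.H225R3.Marg Pool.Agent.TH53.HR

/-- from a large eigenvalue to an eigenvalue away from `1` -/
lemma exists_eps (N : ℕ) (μ : ℝ) (hμ : 0 < μ) :
    ∃ ε : ℝ, 0 < ε ∧ ∀ l : ℂ, μ ≤ (N : ℝ) * Real.log ‖l‖ → 1 < ‖l‖ → ε ≤ ‖l - 1‖ := by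
  obtain ⟨ε, hε, hεc⟩ : ∃ ε : ℝ, 0 < ε ∧ (N : ℝ) * Real.log (1 + ε) < μ := by
    have hcont : ContinuousAt (fun y : ℝ => (N : ℝ) * Real.log (1 + y)) 0 := by
      refine continuousAt_const.mul (ContinuousAt.log (by fun_prop) (by norm_num))
    have h2 := hcont.tendsto
    simp only [add_zero, Real.log_one, mul_zero] at h2
    have h3 : ∀ᶠ y : ℝ in nhdsWithin 0 (Set.Ioi 0), (N : ℝ) * Real.log (1 + y) < μ :=
      (h2.mono_left nhdsWithin_le_nhds).eventually (gt_mem_nhds hμ)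
    obtain ⟨y, hy1, hy2⟩ := (h3.and self_mem_nhdsWithin).exists
    exact ⟨y, hy2, hy1⟩
  refine ⟨ε, hε, fun l hlow hl1 => ?_⟩
  by_contra hcon
  push Not at hcon
  have h1 : ‖l‖ ≤ 1 + ε := by
    have h2 : ‖l‖ ≤ ‖l - 1‖ + ‖(1 : ℂ)‖ := by
      have := norm_add_le (l - 1) 1
      rwa [sub_add_cancel] at this
    rw [norm_one] at h2
    linarith
  have h3 : Real.log ‖l‖ ≤ Real.log (1 + ε) := Real.log_le_log (by linarith) h1
  have h4 := mul_le_mul_of_nonneg_left h3 (Nat.cast_nonneg (α := ℝ) N)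
  linarith

/-- **The gap.** -/
theorem gap_ram2 (p : ℕ) [Fact p.Prime] (c : ℝ) (s n : ℕ) : ∃ ε : ℝ, 0 < ε ∧
    ∀ (k : Type) [Field k] [NumberField k] (S : Finset (k →+* ℂ))
      (A : Matrix (Fin n) (Fin n) (𝓞 k)), S.card ≤ s →
      (resDegSum k p : ℝ) * Real.log (2 * finrank ℚ k) ≤ c * finrank ℚ k → IsUnit A →
      (∀ σ : k →+* ℂ, σ ∉ S → ∀ l : ℂ, ((emb σ).mapMatrix A).charpoly.IsRoot l → ‖l‖ ≤ 1) →
      (∀ N : ℕ, 0 < N → ¬ IsNilpotent (A ^ N - 1)) →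
      ∃ σ ∈ S, ∃ l : ℂ, ((emb σ).mapMatrix A).charpoly.IsRoot l ∧ ε ≤ ‖l - 1‖ := by
  have hp0 : (0 : ℝ) < p := by exact_mod_cast (Fact.out : p.Prime).pos
  obtain ⟨ε, hε, h⟩ := exists_eps (s * n)
    (1 / (4 * (p : ℝ) ^ ⌈40 + 20 * (c * s * n * (Real.log (2 * n) / Real.log 2))⌉₊))
    (by positivity)
  refine ⟨ε, hε, ?_⟩
  intro k _ _ S A hs hc hA hout hnil
  obtain ⟨σ, hσ, l, hl, hl1, hlow⟩ := gap_ram k n s S A hs p c hc hA hout hnil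
  exact ⟨σ, hσ, l, hl, h l hlow hl1⟩

end Pool.Agent.Y399.MG
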