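import Mathlib
import Pool.Agent.Y399.RD.C
import Pool.Agent.H225R3.Marg8

/-!
# Fields of eigenvalues with few expanding conjugates
-/

set_option autoImplicit false

open Finset Polynomial Module NumberField IntermediateField

namespace Pool.Agent.Y399.MG

open Pool.Agent.H388SL Pool.Agent.Y399.RD Pool.Agent.H225R3.Marg

/-- an element on which all embeddings over `E` agree lies in `E` -/
lemma mem_of_agree {E L : Type} [Field E] [Field L] [CharZero E] [Algebra E L] [FiniteDimensional E L]
    [Algebra E ℂ] (y : L) (h : ∀ φ ψ : L →ₐ[E] ℂ, φ y = ψ y) : y ∈ (algebraMap E L).range := by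
  have h1 := Algebra.IsAlgebraic.range_eval_eq_rootSet_minpoly (F := E) (K := L) ℂ y
  have hsep : (minpoly E y).Separable := Algebra.IsSeparable.isSeparable E y
  have h2 : Fintype.card ((minpoly E y).rootSet ℂ) = (minpoly E y).natDegree :=
    card_rootSet_eq_natDegree hsep (IsAlgClosed.splits _)
  have h3 : Subsingleton ((minpoly E y).rootSet ℂ) := by
    rw [← h1]
    constructor
    rintro ⟨_, φ, rfl⟩ ⟨_, ψ, rfl⟩
    exact Subtype.ext (h φ ψ)
  have h4 : (minpoly E y).natDegree ≤ 1 := by
    rw [← h2]
    exact Fintype.card_le_one_iff_subsingleton.mpr h3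
  have hy : IsIntegral E y := Algebra.IsIntegral.isIntegral y
  have h5 : 0 < (minpoly E y).natDegree := minpoly.natDegree_pos hy
  exact minpoly.mem_range_of_degree_eq_one E y (by
    rw [degree_eq_natDegree (minpoly.ne_zero hy)]
    have : (minpoly E y).natDegree = 1 := le_antisymm h4 h5
    rw [this]; rfl)

/-- the field generated by two conjugates of a number field -/
noncomputable def pairDeg {k : Type} [Field k] (σ σ' : k →+* ℂ) : ℕ :=
  finrank ℚ (IntermediateField.adjoin ℚ (Set.range σ ∪ Set.range σ'))

/-- two conjugates of `k` in conjugates of `L` over `E` generate a field of bounded degree -/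
lemma pairDeg_le {k L : Type} [Field k] [NumberField k] [Field L] [NumberField L] [Algebra k L]
    (E : IntermediateField ℚ L) (τ τ' : L →+* ℂ)
    (h : τ.comp (algebraMap E L) = τ'.comp (algebraMap E L)) :
    pairDeg (τ.comp (algebraMap k L)) (τ'.comp (algebraMap k L)) ≤
      finrank ℚ E * (finrank E L * finrank E L) := by
  letI : Algebra E ℂ := (τ.comp (algebraMap E L)).toAlgebra
  haveI : IsScalarTower ℚ E ℂ := IsScalarTower.of_algebraMap_eq' (by
    ext; simp)
  let φ : L →ₐ[E] ℂ := { τ with commutes' := fun x => rfl }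
  let φ' : L →ₐ[E] ℂ := { τ' with commutes' := fun x => (RingHom.congr_fun h x).symm }
  let M : IntermediateField E ℂ := φ.fieldRange ⊔ φ'.fieldRange
  have e1 : finrank E φ.fieldRange = finrank E L := by
    exact (LinearEquiv.finrank_eq (AlgEquiv.ofInjectiveField φ).toLinearEquiv).symm
  have e2 : finrank E φ'.fieldRange = finrank E L := by
    exact (LinearEquiv.finrank_eq (AlgEquiv.ofInjectiveField φ').toLinearEquiv).symm
  have f1 : FiniteDimensional E φ.fieldRange :=
    Module.Finite.equiv (AlgEquiv.ofInjectiveField φ).toLinearEquiv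
  have f2 : FiniteDimensional E φ'.fieldRange :=
    Module.Finite.equiv (AlgEquiv.ofInjectiveField φ').toLinearEquiv
  have h1 : finrank E M ≤ finrank E L * finrank E L := by
    have := IntermediateField.finrank_sup_le φ.fieldRange φ'.fieldRange
    rwa [e1, e2] at this
  haveI f3 : FiniteDimensional E M := IntermediateField.finiteDimensional_sup _ _
  haveI f5 : Module.Free E M := Module.Free.of_divisionRing E M
  haveI f6 : Module.Free ℚ E := Module.Free.of_divisionRing ℚ E
  have h2 : finrank ℚ E * finrank E M = finrank ℚ M := Module.finrank_mul_finrank ℚ E M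
  haveI f4 : FiniteDimensional ℚ M := FiniteDimensional.trans ℚ E M
  have h3 : IntermediateField.adjoin ℚ (Set.range (τ.comp (algebraMap k L)) ∪
      Set.range (τ'.comp (algebraMap k L))) ≤ M.restrictScalars ℚ := by
    rw [IntermediateField.adjoin_le_iff]
    rintro _ (⟨a, rfl⟩ | ⟨a, rfl⟩)
    · exact (le_sup_left : φ.fieldRange ≤ M) ⟨algebraMap k L a, rfl⟩
    · exact (le_sup_right : φ'.fieldRange ≤ M) ⟨algebraMap k L a, rfl⟩
  have h4 : pairDeg (τ.comp (algebraMap k L)) (τ'.comp (algebraMap k L)) ≤ finrank ℚ M := by
    unfold pairDeg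
    haveI : FiniteDimensional ℚ (M.restrictScalars ℚ) := f4
    exact LinearMap.finrank_le_finrank_of_injective
      (f := (IntermediateField.inclusion h3).toLinearMap)
      (IntermediateField.inclusion_injective h3)
  refine h4.trans ?_
  rw [← h2]
  exact Nat.mul_le_mul_left _ h1

end Pool.Agent.Y399.MG
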