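import Pool.Agent.Y399.MG.A

/-!
# The field of an eigenvalue contains the base field
-/

set_option autoImplicit false

open Finset Polynomial Module NumberField IntermediateField

namespace Pool.Agent.Y399.MG

open Pool.Agent.H388SL Pool.Agent.Y399.RD Pool.Agent.H225R3.Marg

section

variable {k L : Type} [Field k] [NumberField k] [Field L] [NumberField L] [Algebra k L]

/-- the degree over a subfield generated by an expanded element -/
lemma finrank_le_of_expand (S : Finset (k →+* ℂ)) (E : IntermediateField ℚ L) (τ0 : E →+* ℂ)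
    (h : ∀ τ : L →+* ℂ, τ.comp (algebraMap E L) = τ0 → τ.comp (algebraMap k L) ∈ S) :
    finrank E L ≤ S.card * finrank k L := by
  classical
  rw [← natCard_ext E L τ0, Nat.card_eq_fintype_card, Fintype.card_subtype]
  have h2 : (univ.filter fun τ : L →+* ℂ => τ.comp (algebraMap E L) = τ0) ⊆
      univ.filter fun τ : L →+* ℂ => τ.comp (algebraMap k L) ∈ S := by
    intro τ hτ
    rw [Finset.mem_filter] at hτ ⊢
    exact ⟨Finset.mem_univ _, h τ hτ.2⟩
  exact (Finset.card_le_card h2).trans (le_of_eq (card_over S))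

/-- **The base field is contained in the field of every power of the eigenvalue.** -/
lemma base_le (S : Finset (k →+* ℂ)) (x : L) (hx0 : x ≠ 0) (hxi : IsIntegral ℤ x)
    (hroot : ∀ m : ℕ, 0 < m → x ^ m ≠ 1)
    (hout : ∀ τ : L →+* ℂ, τ.comp (algebraMap k L) ∉ S → ‖τ x‖ ≤ 1)
    (s n : ℕ) (hs : S.card ≤ s) (hn : finrank k L ≤ n)
    (hS : ∀ σ ∈ S, ∀ σ' ∈ S, σ ≠ σ' → s * n ^ 2 * finrank ℚ k < pairDeg σ σ')
    (j : ℕ) (hj : 0 < j) (a : k) : algebraMap k L a ∈ ℚ⟮x ^ j⟯ := by
  classical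
  set E : IntermediateField ℚ L := ℚ⟮x ^ j⟯ with hE
  let xE : E := ⟨x ^ j, IntermediateField.mem_adjoin_simple_self ℚ (x ^ j)⟩
  have hxE : (algebraMap E L) xE = x ^ j := rfl
  have hex : ∃ τ0 : E →+* ℂ, 1 < ‖τ0 xE‖ := by
    by_contra hcon
    push Not at hcon
    have hxE0 : xE ≠ 0 := by
      intro h
      have h1 : (algebraMap E L) xE = 0 := by rw [h, map_zero]
      rw [hxE] at h1
      exact hx0 (pow_eq_zero_iff hj.ne' |>.mp h1)
    have hxEi : IsIntegral ℤ xE := by
      have h1 : IsIntegral ℤ ((algebraMap E L) xE) := by rw [hxE]; exact hxi.pow j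
      exact (isIntegral_algebraMap_iff (algebraMap E L).injective).mp h1
    obtain ⟨m, hm, h⟩ := NumberField.Embeddings.pow_eq_one_of_norm_le_one E ℂ hxE0 hxEi hcon
    apply hroot (j * m) (Nat.mul_pos hj hm)
    have h1 : (algebraMap E L) (xE ^ m) = 1 := by rw [h, map_one]
    rw [map_pow, hxE, ← pow_mul] at h1
    exact h1
  obtain ⟨τ0, hτ0⟩ := hex
  have hmem : ∀ τ : L →+* ℂ, τ.comp (algebraMap E L) = τ0 → τ.comp (algebraMap k L) ∈ S := by
    intro τ hτ
    by_contra hnot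
    have h1 := hout τ hnot
    have h2 : τ (x ^ j) = τ0 xE := by
      rw [← hτ]; rfl
    rw [← h2, map_pow, norm_pow] at hτ0
    exact absurd hτ0 (not_lt.mpr (pow_le_one₀ (norm_nonneg _) h1))
  by_contra hnot
  letI : Algebra E ℂ := τ0.toAlgebra
  have hag : ¬ ∀ φ ψ : L →ₐ[E] ℂ, φ (algebraMap k L a) = ψ (algebraMap k L a) := by
    intro h
    obtain ⟨b, hb⟩ := mem_of_agree (algebraMap k L a) h
    apply hnot
    rw [← hb]
    exact b.2
  push Not at hag
  obtain ⟨φ, ψ, hne⟩ := hag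
  have hφ : (φ : L →+* ℂ).comp (algebraMap E L) = τ0 := by
    ext e
    exact φ.commutes e
  have hψ : (ψ : L →+* ℂ).comp (algebraMap E L) = τ0 := by
    ext e
    exact ψ.commutes e
  have h1 := hS _ (hmem _ hφ) _ (hmem _ hψ) (fun h => hne (RingHom.congr_fun h a))
  have h2 := pairDeg_le (k := k) E (φ : L →+* ℂ) (ψ : L →+* ℂ) (hφ.trans hψ.symm)
  have h3 := finrank_le_of_expand S E τ0 hmem
  have h4 : finrank E L ≤ s * n := h3.trans (Nat.mul_le_mul hs hn)
  have h5 : finrank ℚ E * finrank E L = finrank ℚ L := Module.finrank_mul_finrank ℚ E L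
  have h6 : finrank ℚ k * finrank k L = finrank ℚ L := Module.finrank_mul_finrank ℚ k L
  have h7 : finrank ℚ E * (finrank E L * finrank E L) ≤ s * n ^ 2 * finrank ℚ k := by
    calc finrank ℚ E * (finrank E L * finrank E L)
        = (finrank ℚ E * finrank E L) * finrank E L := by ring
      _ = (finrank ℚ k * finrank k L) * finrank E L := by rw [h5, h6]
      _ ≤ (finrank ℚ k * n) * (s * n) :=
          Nat.mul_le_mul (Nat.mul_le_mul_left _ hn) h4
      _ = s * n ^ 2 * finrank ℚ k := by ring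
  exact absurd (h1.trans_le (h2.trans h7)) (lt_irrefl _)

/-- there is a power of the element whose field is contained in that of each further power -/
lemma exists_min (x : L) : ∃ j : ℕ, 0 < j ∧ ∀ i : ℕ, 0 < i → ℚ⟮x ^ (j * i)⟯ = ℚ⟮x ^ j⟯ := by
  classical
  have hex : ∃ d : ℕ, ∃ j : ℕ, 0 < j ∧ finrank ℚ ℚ⟮x ^ j⟯ = d := ⟨_, 1, one_pos, rfl⟩
  obtain ⟨j, hj, hjd⟩ := Nat.find_spec hex
  refine ⟨j, hj, fun i hi => ?_⟩
  have hle : ℚ⟮x ^ (j * i)⟯ ≤ ℚ⟮x ^ j⟯ := by
    rw [IntermediateField.adjoin_simple_le_iff, pow_mul]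
    exact pow_mem (IntermediateField.mem_adjoin_simple_self ℚ (x ^ j)) i
  refine IntermediateField.eq_of_le_of_finrank_le hle ?_
  rw [hjd]
  exact Nat.find_min' hex ⟨j * i, Nat.mul_pos hj hi, rfl⟩

end

end Pool.Agent.Y399.MG
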