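import Pool.Agent.Y399.MG.B

/-!
# The lower bound for an eigenvalue
-/

set_option autoImplicit false

open Finset Polynomial Module NumberField IntermediateField

namespace Pool.Agent.Y399.MG

open Pool.Agent.H388SL Pool.Agent.Y399.RD Pool.Agent.H225R3.Marg

section

/-- the conjugates of a relative norm -/
lemma sigma_norm {E L : Type} [Field E] [NumberField E] [Field L] [NumberField L] [Algebra E L]
    [DecidableEq (E →+* ℂ)] (σ : E →+* ℂ) (x : L) :
    σ (Algebra.norm E x) =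
      ∏ τ ∈ univ.filter (fun τ : L →+* ℂ => τ.comp (algebraMap E L) = σ), τ x := by
  letI : Algebra E ℂ := σ.toAlgebra
  have h : algebraMap E ℂ (Algebra.norm E x) = ∏ φ : L →ₐ[E] ℂ, φ x :=
    Algebra.norm_eq_prod_embeddings E ℂ x
  have h0 : σ (Algebra.norm E x) = algebraMap E ℂ (Algebra.norm E x) := rfl
  rw [h0, h]
  refine Finset.prod_bij' (fun φ _ => (φ : L →+* ℂ))
    (fun τ hτ => { τ with commutes' := fun e => RingHom.congr_fun (Finset.mem_filter.mp hτ).2 e })
    ?_ ?_ ?_ ?_ ?_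
  · intro φ _
    rw [Finset.mem_filter]
    refine ⟨Finset.mem_univ _, ?_⟩
    ext e
    exact φ.commutes e
  · intro τ _
    exact Finset.mem_univ _
  · intro φ _
    rfl
  · intro τ _
    rfl
  · intro φ _
    rfl

lemma log_max_prod {ι : Type} (t : Finset ι) (f : ι → ℝ) (hf : ∀ i ∈ t, 0 ≤ f i) :
    Real.log (max 1 (∏ i ∈ t, f i)) ≤ ∑ i ∈ t, Real.log (max 1 (f i)) := by
  rw [← Real.log_prod (fun i _ => (lt_of_lt_of_le one_pos (le_max_left 1 (f i))).ne')]
  refine Real.log_le_log (lt_of_lt_of_le one_pos (le_max_left _ _)) (max_le ?_ ?_)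
  · have h1 : ∏ _i ∈ t, (1 : ℝ) ≤ ∏ i ∈ t, max 1 (f i) :=
      Finset.prod_le_prod (fun _ _ => zero_le_one) fun i _ => le_max_left _ _
    rwa [Finset.prod_const_one] at h1
  · exact Finset.prod_le_prod hf fun i _ => le_max_right _ _

/-- the height of the norm -/
lemma lam_norm_le {k L : Type} [Field k] [NumberField k] [Field L] [NumberField L] [Algebra k L]
    (E : IntermediateField ℚ L) (S : Finset (k →+* ℂ)) (x : L) (R : ℝ) (hR : 1 ≤ R)
    (hout : ∀ τ : L →+* ℂ, τ.comp (algebraMap k L) ∉ S → ‖τ x‖ ≤ 1)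
    (hin : ∀ τ : L →+* ℂ, ‖τ x‖ ≤ R) :
    lam (Algebra.norm E x) ≤ (S.card * finrank k L : ℕ) * Real.log R := by
  classical
  have h1 : lam (Algebra.norm E x) =
      ∑ σ : E →+* ℂ, Real.log (max 1 ‖σ (Algebra.norm E x)‖) := by
    unfold lam
    exact (Fintype.sum_equiv (RingHom.equivRatAlgHom E ℂ) _ _ fun σ => rfl).symm
  rw [h1]
  have h2 : ∀ σ : E →+* ℂ, Real.log (max 1 ‖σ (Algebra.norm E x)‖) ≤
      ∑ τ ∈ univ.filter (fun τ : L →+* ℂ => τ.comp (algebraMap E L) = σ),
        Real.log (max 1 ‖τ x‖) := by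
    intro σ
    rw [sigma_norm σ x, norm_prod]
    exact log_max_prod _ _ fun i _ => norm_nonneg _
  refine (Finset.sum_le_sum fun σ _ => h2 σ).trans ?_
  rw [Finset.sum_fiberwise (s := (univ : Finset (L →+* ℂ)))
    (g := fun τ : L →+* ℂ => τ.comp (algebraMap E L)) (f := fun τ => Real.log (max 1 ‖τ x‖))]
  have h3 : ∀ τ : L →+* ℂ, Real.log (max 1 ‖τ x‖) ≤
      if τ.comp (algebraMap k L) ∈ S then Real.log R else 0 := by
    intro τ
    split_ifs with h
    · exact Real.log_le_log (lt_of_lt_of_le one_pos (le_max_left _ _)) (max_le hR (hin τ))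
    · rw [max_eq_left (hout τ h), Real.log_one]
  refine (Finset.sum_le_sum fun τ _ => h3 τ).trans ?_
  rw [← Finset.sum_filter, Finset.sum_const, card_over S, nsmul_eq_mul]

/-- the discriminant in a tower -/
lemma discr_tower {k M : Type} [Field k] [NumberField k] [Field M] [NumberField M] [Algebra k M] :
    |(discr k : ℝ)| ^ finrank k M ≤ |(discr M : ℝ)| := by
  have h1 := natAbs_discr_eq_absNorm_differentIdeal_mul_natAbs_discr_pow k (𝓞 k) M (𝓞 M)
  have h0 : (discr M).natAbs ≠ 0 := Int.natAbs_ne_zero.mpr (discr_ne_zero M)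
  have h2 : Ideal.absNorm (differentIdeal (𝓞 k) (𝓞 M)) ≠ 0 := by
    intro h
    rw [h, zero_mul] at h1
    exact h0 h1
  have h3 : (discr k).natAbs ^ finrank k M ≤ (discr M).natAbs := by
    rw [h1]
    exact Nat.le_mul_of_pos_left _ (Nat.pos_of_ne_zero h2)
  have e1 : |(discr k : ℝ)| = ((discr k).natAbs : ℝ) := by
    rw [Nat.cast_natAbs, Int.cast_abs]
  have e2 : |(discr M : ℝ)| = ((discr M).natAbs : ℝ) := by
    rw [Nat.cast_natAbs, Int.cast_abs]
  rw [e1, e2]
  exact_mod_cast h3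

/-- **The lower bound.** -/
theorem lower : ∃ c : ℝ, 0 < c ∧ ∀ (k L : Type) [Field k] [NumberField k] [Field L] [NumberField L]
    [Algebra k L] (S : Finset (k →+* ℂ)) (x : L) (s n : ℕ) (δ R : ℝ), x ≠ 0 → IsIntegral ℤ x →
    (∀ m : ℕ, 0 < m → x ^ m ≠ 1) → 1 ≤ R →
    (∀ τ : L →+* ℂ, τ.comp (algebraMap k L) ∉ S → ‖τ x‖ ≤ 1) → (∀ τ : L →+* ℂ, ‖τ x‖ ≤ R) →
    S.card ≤ s → finrank k L ≤ n →
    (∀ σ ∈ S, ∀ σ' ∈ S, σ ≠ σ' → s * n ^ 2 * finrank ℚ k < pairDeg σ σ') → 0 < δ →
    (δ * finrank ℚ k) ^ finrank ℚ k ≤ |(discr k : ℝ)| →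
    c * (Real.log (Real.log (16 + n / δ)) / Real.log (16 + n / δ)) ^ 3 ≤
      (s * n : ℕ) * Real.log R := by
  obtain ⟨c, hc, hfield⟩ := field_bound
  refine ⟨c, hc, ?_⟩
  intro k L _ _ _ _ _ S x s n δ R hx0 hxi hroot hR hout hin hs hn hS hδ hdisc
  classical
  have hbase := base_le S x hx0 hxi hroot hout s n hs hn hS
  obtain ⟨j, hj, hmin⟩ := exists_min x
  set M : IntermediateField ℚ L := ℚ⟮x ^ j⟯ with hM
  -- the base field as a subfield of `M`
  let ι : k →+* M :=
    { toFun := fun a => ⟨algebraMap k L a, hbase j hj a⟩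
      map_one' := Subtype.ext (map_one _)
      map_mul' := fun a b => Subtype.ext (map_mul _ a b)
      map_zero' := Subtype.ext (map_zero _)
      map_add' := fun a b => Subtype.ext (map_add _ a b) }
  letI : Algebra k M := ι.toAlgebra
  haveI : IsScalarTower k M L := IsScalarTower.of_algebraMap_eq fun a => rfl
  haveI : FiniteDimensional k M := FiniteDimensional.left k M L
  haveI : FiniteDimensional M L := FiniteDimensional.right ℚ M L
  have hr1 : 0 < finrank k M := finrank_pos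
  have hML : 0 < finrank M L := finrank_pos
  have htow : finrank k M * finrank M L = finrank k L := Module.finrank_mul_finrank k M L
  have htowQ : finrank ℚ k * finrank k M = finrank ℚ M := Module.finrank_mul_finrank ℚ k M
  have hrn : finrank k M ≤ n := by
    refine le_trans ?_ hn
    rw [← htow]
    exact Nat.le_mul_of_pos_right _ hML
  have hn0 : 0 < n := hr1.trans_le hrn
  -- the element `β`
  let z : M := ⟨x ^ j, IntermediateField.mem_adjoin_simple_self ℚ (x ^ j)⟩
  have hz : algebraMap M L z = x ^ j := rfl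
  set β : M := Algebra.norm M x with hβ
  have hβj : β ^ j = z ^ finrank M L := by
    rw [hβ, ← map_pow, ← hz, Algebra.norm_algebraMap]
  have hβi : IsIntegral ℤ β := Algebra.isIntegral_norm M hxi
  have hβ0 : β ≠ 0 := by
    rw [hβ]
    exact Algebra.norm_ne_zero_iff.mpr hx0
  have hβroot : ∀ m : ℕ, 0 < m → β ^ m ≠ 1 := by
    intro m hm h
    apply hroot (j * (finrank M L * m)) (Nat.mul_pos hj (Nat.mul_pos hML hm))
    have h1 : z ^ (finrank M L * m) = 1 := by
      rw [pow_mul, ← hβj, ← pow_mul, mul_comm j m, pow_mul, h, one_pow]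
    have h2 : algebraMap M L (z ^ (finrank M L * m)) = 1 := by rw [h1, map_one]
    rwa [map_pow, hz, ← pow_mul] at h2
  have hgen : ∀ i : ℕ, 0 < i → ℚ⟮β ^ i⟯ = ⊤ := by
    intro i hi
    set N : IntermediateField ℚ M := ℚ⟮β ^ i⟯ with hN
    have h1 : z ^ (finrank M L * i) ∈ N := by
      rw [pow_mul, ← hβj, ← pow_mul, mul_comm j i, pow_mul]
      exact pow_mem (IntermediateField.mem_adjoin_simple_self ℚ (β ^ i)) j
    have h2 : ℚ⟮x ^ (j * (finrank M L * i))⟯ ≤ IntermediateField.lift N := by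
      rw [IntermediateField.adjoin_simple_le_iff, pow_mul]
      exact (IntermediateField.mem_lift (z ^ (finrank M L * i))).mpr h1
    rw [hmin _ (Nat.mul_pos hML hi)] at h2
    rw [eq_top_iff]
    intro y _
    exact (IntermediateField.mem_lift y).mp (h2 y.2)
  have hcinj : ∀ i : ℕ, 0 < i → CInj (β ^ i) := fun i hi => cinj_of_adjoin (hgen i hi)
  -- the discriminant
  set T : ℝ := n / δ with hT
  have hnR : (0 : ℝ) < n := by exact_mod_cast hn0
  have hT0 : 0 < T := by positivity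
  have hm0 : (0 : ℝ) < finrank ℚ k := by exact_mod_cast (finrank_pos : 0 < finrank ℚ k)
  have hrR : (1 : ℝ) ≤ finrank k M := by exact_mod_cast hr1
  have hrnR : (finrank k M : ℝ) ≤ n := by exact_mod_cast hrn
  have hLD : finrank ℚ M * Real.log (finrank ℚ M / T) ≤ LD β := by
    let α : 𝓞 M := ⟨β, hβi⟩
    have h1 : ℚ⟮(α : M)⟯ = ⊤ := by
      have := hgen 1 one_pos
      rwa [pow_one] at this
    refine le_trans ?_ (log_discr_le α h1)
    have h2 : ((δ * finrank ℚ k) ^ finrank ℚ k) ^ finrank k M ≤ |(discr M : ℝ)| :=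
      (pow_le_pow_left₀ (by positivity) hdisc _).trans discr_tower
    have h3 : Real.log (((δ * finrank ℚ k) ^ finrank ℚ k) ^ finrank k M) ≤
        Real.log |(discr M : ℝ)| := Real.log_le_log (by positivity) h2
    refine le_trans ?_ h3
    rw [← pow_mul, htowQ, Real.log_pow]
    refine mul_le_mul_of_nonneg_left (Real.log_le_log ?_ ?_) (Nat.cast_nonneg _)
    · have : (0 : ℝ) < finrank ℚ M := by exact_mod_cast (finrank_pos : 0 < finrank ℚ M)
      positivity
    · rw [← htowQ, hT]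
      push_cast
      rw [div_div_eq_mul_div, div_le_iff₀ hnR]
      nlinarith [mul_pos hm0 hδ, mul_le_mul_of_nonneg_left hrnR (mul_pos hm0 hδ).le]
  have h4 := hfield M β hβi hβ0 hβroot hcinj T hT0 hLD
  refine h4.trans ((lam_norm_le M S x R hR hout hin).trans ?_)
  refine mul_le_mul_of_nonneg_right ?_ (Real.log_nonneg hR)
  exact_mod_cast Nat.mul_le_mul hs hn

end

end Pool.Agent.Y399.MG
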