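import Pool.Agent.Y399.MG.C

/-!
# The transfer principle
-/

set_option autoImplicit false

open Finset Polynomial Module NumberField IntermediateField

namespace Pool.Agent.Y399.MG

open Pool.Agent.H388SL Pool.Agent.Y399.RD Pool.Agent.H225R3.Marg

section

variable {k L : Type} [Field k] [NumberField k] [Field L] [NumberField L] [Algebra k L]

/-- the degree over the field of a power of an eigenvalue -/
lemma finrank_pow_le (S : Finset (k →+* ℂ)) (x : L) (hx0 : x ≠ 0) (hxi : IsIntegral ℤ x)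
    (hroot : ∀ m : ℕ, 0 < m → x ^ m ≠ 1)
    (hout : ∀ τ : L →+* ℂ, τ.comp (algebraMap k L) ∉ S → ‖τ x‖ ≤ 1)
    (j : ℕ) (hj : 0 < j) : finrank ℚ⟮x ^ j⟯ L ≤ S.card * finrank k L := by
  classical
  set E : IntermediateField ℚ L := ℚ⟮x ^ j⟯ with hE
  let xE : E := ⟨x ^ j, IntermediateField.mem_adjoin_simple_self ℚ (x ^ j)⟩
  have hxE : (algebraMap E L) xE = x ^ j := rfl
  have hex : ∃ τ0 : E →+* ℂ, 1 < ‖τ0 xE‖ := by
    by_contra hcon
    push Not at hcon
    have hxE0 : xE ≠ 0 := by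
      intro h
      have h1 : (algebraMap E L) xE = 0 := by rw [h, map_zero]
      rw [hxE] at h1
      exact hx0 (pow_eq_zero_iff hj.ne' |>.mp h1)
    have hxEi : IsIntegral ℤ xE := by
      have h1 : IsIntegral ℤ ((algebraMap E L) xE) := by rw [hxE]; exact hxi.pow j
      exact (isIntegral_algebraMap_iff (algebraMap E L).injective).mp h1
    obtain ⟨m, hm, h⟩ := NumberField.Embeddings.pow_eq_one_of_norm_le_one E ℂ hxE0 hxEi hcon
    apply hroot (j * m) (Nat.mul_pos hj hm)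
    have h1 : (algebraMap E L) (xE ^ m) = 1 := by rw [h, map_one]
    rw [map_pow, hxE, ← pow_mul] at h1
    exact h1
  obtain ⟨τ0, hτ0⟩ := hex
  refine finrank_le_of_expand S E τ0 fun τ hτ => ?_
  by_contra hnot
  have h1 := hout τ hnot
  have h2 : τ (x ^ j) = τ0 xE := by
    rw [← hτ]; rfl
  rw [← h2, map_pow, norm_pow] at hτ0
  exact absurd hτ0 (not_lt.mpr (pow_le_one₀ (norm_nonneg _) h1))

/-- **The transfer principle**: from an eigenvalue to a generator of a field which has, up to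
bounded factors, the degree and the local behaviour of `k`. -/
theorem transfer (S : Finset (k →+* ℂ)) (x : L) (s n : ℕ) (R : ℝ) (hx0 : x ≠ 0)
    (hxi : IsIntegral ℤ x) (hroot : ∀ m : ℕ, 0 < m → x ^ m ≠ 1) (hR : 1 ≤ R)
    (hout : ∀ τ : L →+* ℂ, τ.comp (algebraMap k L) ∉ S → ‖τ x‖ ≤ 1)
    (hin : ∀ τ : L →+* ℂ, ‖τ x‖ ≤ R) (hs : S.card ≤ s) (hn : finrank k L ≤ n) :
    ∃ (M : IntermediateField ℚ L) (β : 𝓞 M), finrank M L ≤ s * n ∧ β ≠ 0 ∧
      (∀ m : ℕ, 0 < m → β ^ m ≠ 1) ∧ (∀ i : ℕ, 0 < i → ℚ⟮(β : M) ^ i⟯ = ⊤) ∧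
      lam (β : M) ≤ (s * n : ℕ) * Real.log R := by
  classical
  obtain ⟨j, hj, hmin⟩ := exists_min x
  set M : IntermediateField ℚ L := ℚ⟮x ^ j⟯ with hM
  haveI : FiniteDimensional M L := FiniteDimensional.right ℚ M L
  have hML : 0 < finrank M L := finrank_pos
  have hsn : S.card * finrank k L ≤ s * n := Nat.mul_le_mul hs hn
  let z : M := ⟨x ^ j, IntermediateField.mem_adjoin_simple_self ℚ (x ^ j)⟩
  have hz : algebraMap M L z = x ^ j := rfl
  set β : M := Algebra.norm M x with hβ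
  have hβj : β ^ j = z ^ finrank M L := by
    rw [hβ, ← map_pow, ← hz, Algebra.norm_algebraMap]
  have hβi : IsIntegral ℤ β := Algebra.isIntegral_norm M hxi
  have hβ0 : β ≠ 0 := by
    rw [hβ]
    exact Algebra.norm_ne_zero_iff.mpr hx0
  have hβroot : ∀ m : ℕ, 0 < m → β ^ m ≠ 1 := by
    intro m hm h
    apply hroot (j * (finrank M L * m)) (Nat.mul_pos hj (Nat.mul_pos hML hm))
    have h1 : z ^ (finrank M L * m) = 1 := by
      rw [pow_mul, ← hβj, ← pow_mul, mul_comm j m, pow_mul, h, one_pow]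
    have h2 : algebraMap M L (z ^ (finrank M L * m)) = 1 := by rw [h1, map_one]
    rwa [map_pow, hz, ← pow_mul] at h2
  have hgen : ∀ i : ℕ, 0 < i → ℚ⟮β ^ i⟯ = ⊤ := by
    intro i hi
    set N : IntermediateField ℚ M := ℚ⟮β ^ i⟯ with hN
    have h1 : z ^ (finrank M L * i) ∈ N := by
      rw [pow_mul, ← hβj, ← pow_mul, mul_comm j i, pow_mul]
      exact pow_mem (IntermediateField.mem_adjoin_simple_self ℚ (β ^ i)) j
    have h2 : ℚ⟮x ^ (j * (finrank M L * i))⟯ ≤ IntermediateField.lift N := by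
      rw [IntermediateField.adjoin_simple_le_iff, pow_mul]
      exact (IntermediateField.mem_lift (z ^ (finrank M L * i))).mpr h1
    rw [hmin _ (Nat.mul_pos hML hi)] at h2
    rw [eq_top_iff]
    intro y _
    exact (IntermediateField.mem_lift y).mp (h2 y.2)
  refine ⟨M, ⟨β, hβi⟩, (finrank_pow_le S x hx0 hxi hroot hout j hj).trans hsn, ?_, ?_, hgen, ?_⟩
  · intro h
    exact hβ0 (congrArg Subtype.val h)
  · intro m hm h
    apply hβroot m hm
    have := congrArg (algebraMap (𝓞 M) M) h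
    rw [map_pow, map_one] at this
    exact this
  · refine (lam_norm_le M S x R hR hout hin).trans ?_
    refine mul_le_mul_of_nonneg_right ?_ (Real.log_nonneg hR)
    exact_mod_cast hsn

end

/-- the Mahler measure and the height -/
lemma log_mahler {K : Type} [Field K] [NumberField K] (α : 𝓞 K) (h : ℚ⟮(α : K)⟯ = ⊤) :
    Real.log ((minpoly ℤ (α : K)).map (Int.castRingHom ℂ)).mahlerMeasure = lam (α : K) := by
  have hc := cinj_of_adjoin h
  have hα : IsIntegral ℤ (α : K) := α.isIntegral_coe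
  have hpmap : (minpoly ℤ (α : K)).map (Int.castRingHom ℂ) =
      ∏ τ : K →ₐ[ℚ] ℂ, (X - C (τ (α : K))) := by
    rw [← minpoly_map_eq hc, minpoly.isIntegrallyClosed_eq_field_fractions' ℚ hα,
      Polynomial.map_map]
    rfl
  have hMM : ((minpoly ℤ (α : K)).map (Int.castRingHom ℂ)).mahlerMeasure =
      ∏ τ : K →ₐ[ℚ] ℂ, max 1 ‖τ (α : K)‖ := by
    rw [hpmap, Finset.prod_eq_multiset_prod, prod_mahlerMeasure_eq_mahlerMeasure_prod,
      Multiset.map_map, Finset.prod_eq_multiset_prod]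
    congr 1
    refine Multiset.map_congr rfl fun τ _ => ?_
    rw [Function.comp_apply, mahlerMeasure_X_sub_C]
  rw [hMM, Real.log_prod]
  · rfl
  · intro τ _
    have : (0:ℝ) < max 1 ‖τ (α : K)‖ := lt_of_lt_of_le one_pos (le_max_left _ _)
    exact this.ne'

end Pool.Agent.Y399.MG
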