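import Mathlib
import Pool.Agent.TH53.HR10

/-!
# The sum of the residue degrees in extensions
-/

set_option autoImplicit false

open Finset NumberField Module

namespace Pool.Agent.Y399.MG

open Pool.Agent.TH53.HR

variable {k L : Type} [Field k] [NumberField k] [Field L] [NumberField L] [Algebra k L]

/-- the fundamental identity -/
lemma sum_ef (P : Ideal (𝓞 k)) [hP : P.IsPrime] [Fintype (P.primesOver (𝓞 L))] :
    ∑ q : P.primesOver (𝓞 L), q.1.ramificationIdx (𝓞 k) * q.1.inertiaDeg (𝓞 k) =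
      finrank k L := by
  have h1 := Ideal.sum_ramification_inertia_eq_finrank (R := 𝓞 k) P (𝓞 L)
  have h2 : finrank (𝓞 k) (𝓞 L) = finrank k L := by
    exact (IsFractionRing.finrank_eq (𝓞 k) k (𝓞 L) L).symm
  rw [← h2, ← h1]

lemma sum_inertia_le (P : Ideal (𝓞 k)) (hP : P.IsPrime) (T : Finset (Ideal (𝓞 L)))
    (hT : ∀ Q ∈ T, Q.IsPrime ∧ Q.under (𝓞 k) = P) :
    ∑ Q ∈ T, Q.inertiaDeg (𝓞 k) ≤ finrank k L := by
  classical
  have := (Algebra.QuasiFinite.finite_primesOver (R := 𝓞 k) (S := 𝓞 L) P).fintype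
  rw [← sum_ef (L := L) P, ← Finset.sum_coe_sort T]
  have hmem : ∀ Q : T, Q.1 ∈ P.primesOver (𝓞 L) := fun Q =>
    ⟨(hT Q.1 Q.2).1, ⟨(hT Q.1 Q.2).2.symm⟩⟩
  let i : T → P.primesOver (𝓞 L) := fun Q => ⟨Q.1, hmem Q⟩
  have hi : Function.Injective i := fun Q Q' h => Subtype.ext (congrArg (fun x => x.1) h)
  calc ∑ Q : T, Q.1.inertiaDeg (𝓞 k) = ∑ q ∈ univ.map ⟨i, hi⟩, q.1.inertiaDeg (𝓞 k) := by
        rw [Finset.sum_map]
        rfl
    _ ≤ ∑ q : P.primesOver (𝓞 L), q.1.inertiaDeg (𝓞 k) :=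
        Finset.sum_le_sum_of_subset (Finset.subset_univ _)
    _ ≤ _ := by
        refine Finset.sum_le_sum fun q _ => ?_
        haveI : q.1.IsPrime := q.2.1
        exact Nat.le_mul_of_pos_left _ (q.1.ramificationIdx_pos (𝓞 k))

/-- the sum of the residue degrees of an extension -/
lemma resDegSum_up (p : ℕ) [Fact p.Prime] : resDegSum L p ≤ finrank k L * resDegSum k p := by
  classical
  have hp : p.Prime := Fact.out
  unfold resDegSum
  set PL := IsDedekindDomain.primesOverFinset (Ideal.span {(p : ℤ)}) (𝓞 L) with hPL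
  set Pk := IsDedekindDomain.primesOverFinset (Ideal.span {(p : ℤ)}) (𝓞 k) with hPk
  have hmem : ∀ Q ∈ PL, Q.under (𝓞 k) ∈ Pk := by
    intro Q hQ
    rw [hPL, IsDedekindDomain.mem_primesOverFinset_iff (span_ne_bot hp)] at hQ
    rw [hPk, IsDedekindDomain.mem_primesOverFinset_iff (span_ne_bot hp)]
    obtain ⟨h1, h2⟩ := hQ
    refine ⟨Ideal.IsPrime.under (𝓞 k) Q, ⟨?_⟩⟩
    rw [Ideal.under_under]
    exact h2.over
  rw [← Finset.sum_fiberwise_of_maps_to hmem, Finset.mul_sum]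
  refine Finset.sum_le_sum fun P hP => ?_
  rw [hPk, IsDedekindDomain.mem_primesOverFinset_iff (span_ne_bot hp)] at hP
  have h1 : ∀ Q ∈ PL.filter (fun Q => Q.under (𝓞 k) = P),
      Q.inertiaDeg ℤ = P.inertiaDeg ℤ * Q.inertiaDeg (𝓞 k) := by
    intro Q hQ
    rw [Finset.mem_filter] at hQ
    haveI : Q.LiesOver P := ⟨hQ.2.symm⟩
    exact Ideal.inertiaDeg_tower (R := ℤ) P Q
  rw [Finset.sum_congr rfl h1, ← Finset.mul_sum, mul_comm]
  refine Nat.mul_le_mul_right _ (sum_inertia_le P hP.1 _ fun Q hQ => ?_)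
  rw [Finset.mem_filter, hPL, IsDedekindDomain.mem_primesOverFinset_iff (span_ne_bot hp)] at hQ
  exact ⟨hQ.1.1, hQ.2⟩

/-- the sum of the residue degrees of a subfield -/
lemma resDegSum_down (p : ℕ) [Fact p.Prime] : resDegSum k p ≤ resDegSum L p := by
  classical
  have hp : p.Prime := Fact.out
  unfold resDegSum
  set PL := IsDedekindDomain.primesOverFinset (Ideal.span {(p : ℤ)}) (𝓞 L) with hPL
  set Pk := IsDedekindDomain.primesOverFinset (Ideal.span {(p : ℤ)}) (𝓞 k) with hPk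
  have hex : ∀ P ∈ Pk, ∃ Q ∈ PL, Q.under (𝓞 k) = P := by
    intro P hP
    rw [hPk, IsDedekindDomain.mem_primesOverFinset_iff (span_ne_bot hp)] at hP
    obtain ⟨h1, h2⟩ := hP
    obtain ⟨Q, hQ1, hQ2⟩ := Ideal.exists_ideal_over_prime_of_isIntegral_of_isDomain (S := 𝓞 L) P
      (by
        rw [(RingHom.injective_iff_ker_eq_bot (algebraMap (𝓞 k) (𝓞 L))).mp
          (FaithfulSMul.algebraMap_injective (𝓞 k) (𝓞 L))]
        exact bot_le)
    have hQP : Q.under (𝓞 k) = P := hQ2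
    refine ⟨Q, ?_, hQP⟩
    rw [hPL, IsDedekindDomain.mem_primesOverFinset_iff (span_ne_bot hp)]
    refine ⟨hQ1, ⟨?_⟩⟩
    rw [← Ideal.under_under (A := ℤ) (B := 𝓞 k), hQP]
    exact h2.over
  choose! f hf1 hf2 using hex
  have hinj : Set.InjOn f Pk := by
    intro P hP P' hP' h
    rw [← hf2 P hP, ← hf2 P' hP', h]
  calc ∑ P ∈ Pk, P.inertiaDeg ℤ ≤ ∑ P ∈ Pk, (f P).inertiaDeg ℤ := by
        refine Finset.sum_le_sum fun P hP => ?_
        haveI : (f P).LiesOver P := ⟨(hf2 P hP).symm⟩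
        have h3 := hf1 P hP
        rw [hPL, IsDedekindDomain.mem_primesOverFinset_iff (span_ne_bot hp)] at h3
        haveI : (f P).IsPrime := h3.1
        rw [Ideal.inertiaDeg_tower (R := ℤ) P (f P)]
        exact Nat.le_mul_of_pos_right _ ((f P).inertiaDeg_pos (𝓞 k))
    _ = ∑ Q ∈ Pk.image f, Q.inertiaDeg ℤ :=
        (Finset.sum_image (f := fun Q : Ideal (𝓞 L) => Q.inertiaDeg ℤ) hinj).symm
    _ ≤ _ := by
        refine Finset.sum_le_sum_of_subset ?_
        intro Q hQ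
        rw [Finset.mem_image] at hQ
        obtain ⟨P, hP, rfl⟩ := hQ
        exact hf1 P hP

end Pool.Agent.Y399.MG
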