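import Pool.Agent.Y399.MG.E
import Pool.Agent.Y399.MG.F

/-!
# Integral matrices over highly ramified number fields
-/

set_option autoImplicit false

open Finset Polynomial Module NumberField IntermediateField

namespace Pool.Agent.Y399.MG

open Pool.Agent.H388SL Pool.Agent.Y399.RD Pool.Agent.H225R3.Marg Pool.Agent.TH53.HR

/-- the degree of the subfield -/
lemma finrank_sub {k L : Type} [Field k] [NumberField k] [Field L] [NumberField L] [Algebra k L]
    (M : IntermediateField ℚ L) :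
    finrank ℚ M * finrank M L = finrank ℚ k * finrank k L := by
  have h5 : finrank ℚ M * finrank M L = finrank ℚ L := Module.finrank_mul_finrank ℚ M L
  have h6 : finrank ℚ k * finrank k L = finrank ℚ L := Module.finrank_mul_finrank ℚ k L
  rw [h5, h6]

/-- the sum of the residue degrees of the subfield -/
lemma resDegSum_sub {k L : Type} [Field k] [NumberField k] [Field L] [NumberField L] [Algebra k L]
    (M : IntermediateField ℚ L) (s n : ℕ) (hn : finrank k L ≤ n) (hM : finrank M L ≤ s * n)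
    (p : ℕ) [Fact p.Prime] (c : ℝ)
    (hc : (resDegSum k p : ℝ) * Real.log (2 * finrank ℚ k) ≤ c * finrank ℚ k) :
    (resDegSum M p : ℝ) * Real.log (2 * finrank ℚ M) ≤
      (c * s * n * (Real.log (2 * n) / Real.log 2)) * finrank ℚ M := by
  have hm1 : 0 < finrank ℚ k := finrank_pos
  have hD1 : 0 < finrank ℚ M := finrank_pos
  haveI : FiniteDimensional k L := Module.Finite.of_restrictScalars_finite ℚ k L
  haveI : FiniteDimensional M L := FiniteDimensional.right ℚ M L
  have hr1 : 0 < finrank k L := finrank_pos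
  have hl1 : 0 < finrank M L := finrank_pos
  have hn1 : 0 < n := hr1.trans_le hn
  have htow := finrank_sub (k := k) M
  have hlog2 : 0 < Real.log 2 := Real.log_pos (by norm_num)
  have hmR : (1 : ℝ) ≤ finrank ℚ k := by exact_mod_cast hm1
  have hnR : (1 : ℝ) ≤ n := by exact_mod_cast hn1
  have hDR : (1 : ℝ) ≤ finrank ℚ M := by exact_mod_cast hD1
  have hrR : (1 : ℝ) ≤ finrank k L := by exact_mod_cast hr1
  have hlogm : Real.log 2 ≤ Real.log (2 * finrank ℚ k) :=
    Real.log_le_log (by norm_num) (by linarith)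
  have hc0 : 0 ≤ c := by
    have h1 : (0 : ℝ) ≤ (resDegSum k p : ℝ) * Real.log (2 * finrank ℚ k) :=
      mul_nonneg (Nat.cast_nonneg _) (by linarith)
    by_contra h
    push Not at h
    nlinarith
  -- the logarithm of the degree
  have h1 : (finrank ℚ M : ℝ) ≤ finrank ℚ k * n := by
    have h2 : finrank ℚ M ≤ finrank ℚ k * n := by
      calc finrank ℚ M ≤ finrank ℚ M * finrank M L := Nat.le_mul_of_pos_right _ hl1
        _ = finrank ℚ k * finrank k L := htow
        _ ≤ _ := Nat.mul_le_mul_left _ hn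
    exact_mod_cast h2
  have h2 : Real.log (2 * finrank ℚ M) ≤
      Real.log (2 * finrank ℚ k) * (Real.log (2 * n) / Real.log 2) := by
    have h3 : Real.log (2 * finrank ℚ M) ≤ Real.log (2 * finrank ℚ k * n) :=
      Real.log_le_log (by linarith) (by linarith)
    have h4 : Real.log (2 * finrank ℚ k * n) = Real.log (2 * finrank ℚ k) + Real.log n :=
      Real.log_mul (by positivity) (by positivity)
    have h5 : Real.log (2 * n) = Real.log 2 + Real.log n :=
      Real.log_mul (by positivity) (by positivity)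
    have h6 : 0 ≤ Real.log (n : ℝ) := Real.log_nonneg hnR
    have h7 : Real.log n ≤ Real.log (2 * finrank ℚ k) * (Real.log n / Real.log 2) := by
      rw [← mul_div_assoc, le_div_iff₀ hlog2]
      nlinarith
    rw [h5, add_div, div_self hlog2.ne', mul_add, mul_one]
    linarith
  have h8 : (resDegSum M p : ℝ) ≤ finrank k L * resDegSum k p := by
    exact_mod_cast (resDegSum_down (k := M) (L := L) p).trans (resDegSum_up (k := k) (L := L) p)
  have h9 : 0 ≤ Real.log (2 * n) / Real.log 2 :=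
    div_nonneg (Real.log_nonneg (by linarith)) hlog2.le
  have h10 : (finrank ℚ k : ℝ) * finrank k L = finrank ℚ M * finrank M L := by
    exact_mod_cast htow.symm
  have h11 : (finrank M L : ℝ) ≤ s * n := by exact_mod_cast hM
  have h12 : 0 ≤ Real.log (2 * finrank ℚ M) := Real.log_nonneg (by linarith)
  calc (resDegSum M p : ℝ) * Real.log (2 * finrank ℚ M)
      ≤ (finrank k L * resDegSum k p) *
        (Real.log (2 * finrank ℚ k) * (Real.log (2 * n) / Real.log 2)) :=
        mul_le_mul h8 h2 h12 (by positivity)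
    _ = finrank k L * (Real.log (2 * n) / Real.log 2) *
        (resDegSum k p * Real.log (2 * finrank ℚ k)) := by ring
    _ ≤ finrank k L * (Real.log (2 * n) / Real.log 2) * (c * finrank ℚ k) :=
        mul_le_mul_of_nonneg_left hc (by positivity)
    _ = c * (Real.log (2 * n) / Real.log 2) * (finrank ℚ k * finrank k L) := by ring
    _ = c * (Real.log (2 * n) / Real.log 2) * finrank ℚ M * finrank M L := by rw [h10]; ring
    _ ≤ c * (Real.log (2 * n) / Real.log 2) * finrank ℚ M * (s * n) :=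
        mul_le_mul_of_nonneg_left h11 (by positivity)
    _ = _ := by ring

/-- **From eigenvalues to matrices.** -/
theorem gap_of (k : Type) [Field k] [NumberField k] (n : ℕ) (S : Finset (k →+* ℂ))
    (A : Matrix (Fin n) (Fin n) (𝓞 k)) (P : ℝ → Prop)
    (hP : ∀ (L : Type) [Field L] [NumberField L] [Algebra k L] (x : L) (R : ℝ), x ≠ 0 →
      IsIntegral ℤ x → (∀ m : ℕ, 0 < m → x ^ m ≠ 1) → 1 ≤ R →
      (∀ τ : L →+* ℂ, τ.comp (algebraMap k L) ∉ S → ‖τ x‖ ≤ 1) → (∀ τ : L →+* ℂ, ‖τ x‖ ≤ R) →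
      finrank k L ≤ n → P R)
    (hA : IsUnit A)
    (hout : ∀ σ : k →+* ℂ, σ ∉ S → ∀ l : ℂ, ((emb σ).mapMatrix A).charpoly.IsRoot l → ‖l‖ ≤ 1)
    (hnil : ∀ N : ℕ, 0 < N → ¬ IsNilpotent (A ^ N - 1)) :
    ∃ σ ∈ S, ∃ l : ℂ, ((emb σ).mapMatrix A).charpoly.IsRoot l ∧ 1 < ‖l‖ ∧ P ‖l‖ := by
  classical
  -- a root which is not a root of unity
  set f : 𝓞 k →+* AlgebraicClosure k :=
    (algebraMap k (AlgebraicClosure k)).comp (algebraMap (𝓞 k) k) with hf
  have hfinj : Function.Injective f :=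
    (algebraMap k (AlgebraicClosure k)).injective.comp
      (FaithfulSMul.algebraMap_injective (𝓞 k) k)
  obtain ⟨l, hl, hlN⟩ : ∃ l, (A.charpoly.map f).IsRoot l ∧ ∀ N : ℕ, 0 < N → l ^ N ≠ 1 := by
    by_contra hcon
    push Not at hcon
    obtain ⟨N, hN, h⟩ := nilp_of_roots f hfinj A hcon
    exact hnil N hN h
  have hspec : l ∈ spectrum (AlgebraicClosure k) (f.mapMatrix A) := by
    rw [Matrix.mem_spectrum_iff_isRoot_charpoly]
    have : (f.mapMatrix A).charpoly = A.charpoly.map f := by rw [← Matrix.charpoly_map]; rfl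
    rw [this]
    exact hl
  have hl0 : l ≠ 0 := by
    rintro rfl
    exact (spectrum.zero_notMem_iff _).mpr (hA.map f.mapMatrix) hspec
  -- the field
  have hlint : IsIntegral k l := Algebra.IsIntegral.isIntegral l
  let L := IntermediateField.adjoin k {l}
  haveI : FiniteDimensional k L := IntermediateField.adjoin.finiteDimensional hlint
  haveI : CharZero L := charZero_of_injective_algebraMap (algebraMap k L).injective
  haveI : NumberField L := NumberField.of_module_finite k L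
  let x : L := ⟨l, IntermediateField.mem_adjoin_simple_self k l⟩
  have hxl : algebraMap L (AlgebraicClosure k) x = l := rfl
  set g : 𝓞 k →+* L := (algebraMap k L).comp (algebraMap (𝓞 k) k) with hg
  have hgf : (algebraMap L (AlgebraicClosure k)).comp g = f := by
    rw [hg, hf, ← RingHom.comp_assoc]
    rfl
  have hx0 : eval₂ g x A.charpoly = 0 := by
    apply (algebraMap L (AlgebraicClosure k)).injective
    rw [map_zero, hom_eval₂, hgf, hxl]
    rw [IsRoot, eval_map] at hl
    exact hl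
  have hxint : IsIntegral ℤ x := by
    have h1 : IsIntegral (𝓞 k) x := by
      refine ⟨A.charpoly, A.charpoly_monic, ?_⟩
      have : algebraMap (𝓞 k) L = g := rfl
      rw [this]
      exact hx0
    haveI : IsScalarTower ℤ (𝓞 k) L := IsScalarTower.of_algebraMap_eq' (RingHom.ext_int _ _)
    exact isIntegral_trans x h1
  have hxne : x ≠ 0 := by
    intro h
    apply hl0
    rw [← hxl, h, map_zero]
  have hxroot : ∀ N : ℕ, 0 < N → x ^ N ≠ 1 := by
    intro N hN h
    apply hlN N hN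
    rw [← hxl, ← map_pow, h, map_one]
  have hdeg : finrank k L ≤ n := by
    have h1 : finrank k L = (minpoly k l).natDegree := IntermediateField.adjoin.finrank hlint
    rw [h1]
    have h2 : (A.charpoly.map (algebraMap (𝓞 k) k)).Monic := A.charpoly_monic.map _
    have h3 : aeval l (A.charpoly.map (algebraMap (𝓞 k) k)) = 0 := by
      rw [aeval_def, eval₂_map]
      rw [IsRoot, eval_map] at hl
      exact hl
    refine (natDegree_le_of_dvd (minpoly.dvd k l h3) h2.ne_zero).trans ?_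
    rw [A.charpoly_monic.natDegree_map, Matrix.charpoly_natDegree_eq_dim, Fintype.card_fin]
  -- norms of the conjugates
  have hτroot : ∀ τ : L →+* ℂ,
      ((emb (τ.comp (algebraMap k L))).mapMatrix A).charpoly.IsRoot (τ x) := by
    intro τ
    have h1 : ((emb (τ.comp (algebraMap k L))).mapMatrix A).charpoly =
        A.charpoly.map (emb (τ.comp (algebraMap k L))) := by rw [← Matrix.charpoly_map]; rfl
    rw [h1, IsRoot, eval_map]
    have h2 : emb (τ.comp (algebraMap k L)) = τ.comp g := rfl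
    rw [h2, ← hom_eval₂, hx0, map_zero]
  have hτout : ∀ τ : L →+* ℂ, τ.comp (algebraMap k L) ∉ S → ‖τ x‖ ≤ 1 :=
    fun τ hτ => hout _ hτ _ (hτroot τ)
  obtain ⟨τ1, hτ1⟩ : ∃ τ1 : L →+* ℂ, 1 < ‖τ1 x‖ := by
    by_contra hcon
    push Not at hcon
    obtain ⟨N, hN, h⟩ := NumberField.Embeddings.pow_eq_one_of_norm_le_one L ℂ hxne hxint hcon
    exact hxroot N hN h
  obtain ⟨τ0, -, hmax⟩ := Finset.exists_max_image (univ : Finset (L →+* ℂ)) (fun τ => ‖τ x‖)
    ⟨τ1, Finset.mem_univ _⟩
  have hτ0 : 1 < ‖τ0 x‖ := hτ1.trans_le (hmax τ1 (Finset.mem_univ _))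
  have hmem : τ0.comp (algebraMap k L) ∈ S := by
    by_contra h
    exact absurd hτ0 (not_lt.mpr (hτout τ0 h))
  refine ⟨_, hmem, τ0 x, hτroot τ0, hτ0, ?_⟩
  exact hP L x ‖τ0 x‖ hxne hxint hxroot hτ0.le hτout (fun τ => hmax τ (Finset.mem_univ _)) hdeg

/-- **The transfer principle for integral matrices.** -/
theorem gap_transfer (k : Type) [Field k] [NumberField k] (n s : ℕ) (S : Finset (k →+* ℂ))
    (A : Matrix (Fin n) (Fin n) (𝓞 k)) (hs : S.card ≤ s) (μ : ℝ)
    (hμ : ∀ (L : Type) [Field L] [NumberField L] [Algebra k L] (M : IntermediateField ℚ L)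
      (β : 𝓞 M), finrank k L ≤ n → finrank M L ≤ s * n → β ≠ 0 → (∀ m : ℕ, 0 < m → β ^ m ≠ 1) →
      (∀ i : ℕ, 0 < i → ℚ⟮(β : M) ^ i⟯ = ⊤) →
      μ ≤ Real.log ((minpoly ℤ (β : M)).map (Int.castRingHom ℂ)).mahlerMeasure)
    (hA : IsUnit A)
    (hout : ∀ σ : k →+* ℂ, σ ∉ S → ∀ l : ℂ, ((emb σ).mapMatrix A).charpoly.IsRoot l → ‖l‖ ≤ 1)
    (hnil : ∀ N : ℕ, 0 < N → ¬ IsNilpotent (A ^ N - 1)) :
    ∃ σ ∈ S, ∃ l : ℂ, ((emb σ).mapMatrix A).charpoly.IsRoot l ∧ 1 < ‖l‖ ∧
      μ ≤ (s * n : ℕ) * Real.log ‖l‖ := by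
  refine gap_of k n S A (fun R => μ ≤ (s * n : ℕ) * Real.log R) ?_ hA hout hnil
  intro L _ _ _ x R hx0 hxi hroot hR hout' hin hdeg
  obtain ⟨M, β, h1, h2, h3, h4, h5⟩ := transfer S x s n R hx0 hxi hroot hR hout' hin hs hdeg
  have h6 : ℚ⟮(β : M)⟯ = ⊤ := by
    have := h4 1 one_pos
    rwa [pow_one] at this
  have h7 := hμ L M β hdeg h1 h2 h3 h4
  rw [log_mahler β h6] at h7
  exact h7.trans h5

/-- **The lower bound for highly ramified fields.** -/
theorem gap_ram (k : Type) [Field k] [NumberField k] (n s : ℕ) (S : Finset (k →+* ℂ))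
    (A : Matrix (Fin n) (Fin n) (𝓞 k)) (hs : S.card ≤ s) (p : ℕ) [Fact p.Prime] (c : ℝ)
    (hc : (resDegSum k p : ℝ) * Real.log (2 * finrank ℚ k) ≤ c * finrank ℚ k)
    (hA : IsUnit A)
    (hout : ∀ σ : k →+* ℂ, σ ∉ S → ∀ l : ℂ, ((emb σ).mapMatrix A).charpoly.IsRoot l → ‖l‖ ≤ 1)
    (hnil : ∀ N : ℕ, 0 < N → ¬ IsNilpotent (A ^ N - 1)) :
    ∃ σ ∈ S, ∃ l : ℂ, ((emb σ).mapMatrix A).charpoly.IsRoot l ∧ 1 < ‖l‖ ∧
      1 / (4 * (p : ℝ) ^ ⌈40 + 20 * (c * s * n * (Real.log (2 * n) / Real.log 2))⌉₊) ≤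
        (s * n : ℕ) * Real.log ‖l‖ := by
  refine gap_transfer k n s S A hs _ ?_ hA hout hnil
  intro L _ _ _ M β hn hM hβ0 hβr hgen
  have h1 := number_field p β (fun i => hgen (p ^ i) (pow_pos (Fact.out : p.Prime).pos i))
    hβ0 hβr (c * s * n * (Real.log (2 * n) / Real.log 2))
    (resDegSum_sub (k := k) M s n hn hM p c hc)
  exact (Real.le_log_iff_exp_le ((Real.exp_pos _).trans_le h1)).mpr h1

end Pool.Agent.Y399.MG
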